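import Pool.Agent.H447R3.SpDefs

/-!
# Even and odd Betti numbers
-/

open CategoryTheory AlgebraicGeometry Finset

universe u v

namespace Pool.Agent.W538.Sign

open Pool.Agent.H914 VarClass Obj WeilCohomology

variable {k : Type u} [Field k] {𝒱 : VarClass k} {ops : CycleOps 𝒱}

/-- The sum of the Betti numbers of even degree of `X` for the cohomology theory `W`. -/
noncomputable def evenBetti (W : WeilCohomology.{u, v} ops) (X : 𝒱.Obj) : ℕ :=
  ∑ i ∈ (range (2 * X.dim + 1)).filter (fun i => Even i), Module.finrank W.K (W.gr X i)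

/-- The sum of the Betti numbers of odd degree of `X` for the cohomology theory `W`. -/
noncomputable def oddBetti (W : WeilCohomology.{u, v} ops) (X : 𝒱.Obj) : ℕ :=
  ∑ i ∈ (range (2 * X.dim + 1)).filter (fun i => ¬ Even i), Module.finrank W.K (W.gr X i)

/-- The cycle `z` on `X × X` induces the projector onto the even cohomology for `W`. -/
def InducesEven (W : WeilCohomology.{u, v} ops) (X : 𝒱.Obj) (z : (X.prod X).Cycles) : Prop :=
  Pool.Agent.H447.IsEvenProj (W.gr X) (W.corr (W.cl (X.prod X) z))

end Pool.Agent.W538.Sign
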