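import Pool.Agent.W538.Sign.Lin
import Pool.Agent.W538.Sign.Defs

/-!
# The sign conjecture for different Weil cohomology theories
-/

open CategoryTheory AlgebraicGeometry Finset Polynomial

universe u v

namespace Pool.Agent.W538.Sign

open Pool.Agent.H914 VarClass Obj WeilCohomology Pool.Agent.H447

variable {k : Type u} [Field k] {𝒱 : VarClass k} {ops : CycleOps 𝒱} {X : 𝒱.Obj}

lemma evenProj_idem (W : WeilCohomology.{u, v} ops) :
    evenProj (W.isInternal X) * evenProj (W.isInternal X) = evenProj (W.isInternal X) := by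
  rw [evenProj, scal_mul]
  congr 1
  funext i
  split_ifs <;> simp

lemma hbd (W : WeilCohomology.{u, v} ops) : ∀ i, 2 * X.dim + 1 ≤ i → W.gr X i = ⊥ :=
  fun i hi => W.gr_eq_bot X i (by omega)

lemma trace_evenProj (W : WeilCohomology.{u, v} ops) :
    LinearMap.trace W.K (W.H X) (evenProj (W.isInternal X)) = (evenBetti W X : W.K) := by
  rw [evenProj, trace_scal _ (hbd W), evenBetti, Finset.sum_filter]
  push_cast
  apply Finset.sum_congr rfl
  intro i _
  split_ifs <;> simp

lemma finrank_eq (W : WeilCohomology.{u, v} ops) :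
    Module.finrank W.K (W.H X) = evenBetti W X + oddBetti W X := by
  rw [finrank_eq_sum (W.isInternal X) (hbd W), evenBetti, oddBetti,
    Finset.sum_filter_add_sum_filter_not]

lemma par_eq (W : WeilCohomology.{u, v} ops) : par (W.isInternal X) =
    evenProj (W.isInternal X) - (1 - evenProj (W.isInternal X)) := by
  have h1 := par_evenProj (W.isInternal X)
  have h2 := par_one_sub_evenProj (W.isInternal X)
  have h3 : par (W.isInternal X) = par (W.isInternal X) * evenProj (W.isInternal X) +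
      par (W.isInternal X) * (1 - evenProj (W.isInternal X)) := by
    rw [← mul_add, add_sub_cancel, mul_one]
  rw [h3, h1, h2]
  module

lemma commute_evenProj (W : WeilCohomology.{u, v} ops) {y : Module.End W.K (W.H X)}
    (hy : IsHom (W.gr X) 0 y) : Commute (evenProj (W.isInternal X)) y := by
  have := hy.scal_comm (W.isInternal X) (fun i => if 0 ≤ i then (if Even i.toNat then 1 else 0) else 0)
    (fun i => if 0 ≤ i then (if Even i.toNat then 1 else 0) else 0) (fun i => by rw [add_zero])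
  simp only [Int.natCast_nonneg, if_true, Int.toNat_natCast] at this
  exact this

section two

variable (W₀ W : WeilCohomology.{u, v} ops) {z₀ : (X.prod X).Cycles}
  (hz₀ : (X.prod X).IsCyc X.dim z₀) (h₀ : InducesEven W₀ X z₀)

include hz₀ in
lemma realized₀ : Realized.{u, v} ops X 0 (fun W => W.corr (W.cl _ z₀)) :=
  Or.inl ⟨X.dim, by rw [add_zero], z₀, hz₀, fun _ => rfl⟩

include hz₀ h₀ in
/-- the traces in the second theory -/
lemma traces (r : ℕ) :
    LinearMap.trace W.K (W.H X) (evenProj (W.isInternal X) * (W.corr (W.cl _ z₀)) ^ (r + 1)) -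
      LinearMap.trace W.K (W.H X)
        ((1 - evenProj (W.isInternal X)) * (W.corr (W.cl _ z₀)) ^ (r + 1)) =
      (evenBetti W₀ X : W.K) := by
  have hP := relOp_pairRel X W₀ W
  have h1 : relOp X W₀ W (W₀.corr (W₀.cl _ z₀)) (W.corr (W.cl _ z₀)) :=
    ⟨_, realized₀ hz₀, rfl, rfl⟩
  have h2 := hP.pow h1 (r + 1)
  obtain ⟨q, hq₀, hq⟩ := hP.tr h2
  rw [isEvenProj_iff.1 h₀] at hq₀
  have h3 : evenProj (W₀.isInternal X) ^ (r + 1) = evenProj (W₀.isInternal X) := by
    have := evenProj_idem (X := X) W₀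
    exact IsIdempotentElem.pow_succ_eq r this
  rw [h3, par_evenProj, trace_evenProj] at hq₀
  have hqb : q = evenBetti W₀ X := by exact_mod_cast hq₀.symm
  rw [par_eq, sub_mul, map_sub, hqb] at hq
  rw [hq]
  norm_cast

lemma euler : (evenBetti W₀ X : ℤ) - oddBetti W₀ X = evenBetti W X - oddBetti W X := by
  have key : ∀ W : WeilCohomology.{u, v} ops,
      LinearMap.trace W.K (W.H X) (par (W.isInternal X) * 1) =
        (((evenBetti W X : ℤ) - oddBetti W X : ℤ) : W.K) := by
    intro W
    rw [mul_one, par_eq, map_sub, map_sub, trace_evenProj, LinearMap.trace_one, finrank_eq]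
    push_cast; ring
  obtain ⟨q, hq₀, hq⟩ := (relOp_pairRel X W₀ W).tr (relOp_pairRel X W₀ W).one
  rw [key] at hq₀ hq
  have e1 : q = (((evenBetti W₀ X : ℤ) - oddBetti W₀ X : ℤ) : ℚ) := by
    have : (q : W₀.K) = ((((evenBetti W₀ X : ℤ) - oddBetti W₀ X : ℤ) : ℚ) : W₀.K) := by
      rw [← hq₀]; push_cast; rfl
    exact_mod_cast this
  have e2 : q = (((evenBetti W X : ℤ) - oddBetti W X : ℤ) : ℚ) := by
    have : (q : W.K) = ((((evenBetti W X : ℤ) - oddBetti W X : ℤ) : ℚ) : W.K) := by
      rw [← hq]; push_cast; rfl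
    exact_mod_cast this
  rw [e1] at e2
  exact_mod_cast e2

include hz₀ h₀ in
lemma exists_defect : ∃ c : ℕ, evenBetti W X = evenBetti W₀ X + c := by
  have hy : IsHom (W.gr X) 0 (W.corr (W.cl _ z₀)) := by
    simpa using (realized₀ (ops := ops) hz₀).isHom W
  obtain ⟨c, hc, -⟩ := core (evenProj_idem W) (commute_evenProj W hy) (traces W₀ W hz₀ h₀)
  rw [trace_evenProj] at hc
  exact ⟨c, by exact_mod_cast hc⟩

include hz₀ h₀ in
/-- the same cycle in all theories with the same Betti numbers -/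
lemma exists_cycle : ∃ z, (X.prod X).IsCyc X.dim z ∧ ∀ W : WeilCohomology.{u, v} ops,
    evenBetti W X = evenBetti W₀ X → InducesEven W X z := by
  set M := evenBetti W₀ X + oddBetti W₀ X + 1 with hM
  have hr := (realized₀ (ops := ops) hz₀).ev (qM M)
  rcases hr with ⟨q, hq, z, hz, hY⟩ | ⟨hd, -⟩
  · obtain rfl : q = X.dim := by omega
    refine ⟨z, hz, fun W hW => ?_⟩
    rw [InducesEven, isEvenProj_iff, ← hY W]
    have hy : IsHom (W.gr X) 0 (W.corr (W.cl _ z₀)) := by
      simpa using (realized₀ (ops := ops) hz₀).isHom W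
    refine eq_poly (evenProj_idem W) (commute_evenProj W hy) (traces W₀ W hz₀ h₀)
      (by rw [trace_evenProj, hW]) ?_ (by omega)
    have he := euler (X := X) W₀ W
    rw [finrank_eq]
    omega
  · exfalso; omega

end two

/-- **The sign conjecture and the Betti numbers.** -/
theorem main (W₀ : WeilCohomology.{u, v} ops) (h₀ : SignStd W₀ X) :
    (∃ z, (X.prod X).IsCyc X.dim z ∧ ∀ W : WeilCohomology.{u, v} ops,
      evenBetti W X = evenBetti W₀ X → InducesEven W X z) ∧
    ∀ W : WeilCohomology.{u, v} ops, ∃ c : ℕ, evenBetti W X = evenBetti W₀ X + c ∧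
      oddBetti W X = oddBetti W₀ X + c ∧ (SignStd W X ↔ c = 0) := by
  obtain ⟨z₀, hz₀, h₀⟩ := h₀
  obtain ⟨z, hz, hzW⟩ := exists_cycle W₀ hz₀ h₀
  refine ⟨⟨z, hz, hzW⟩, fun W => ?_⟩
  obtain ⟨c, hc⟩ := exists_defect W₀ W hz₀ h₀
  have he := euler (X := X) W₀ W
  refine ⟨c, hc, by omega, ?_, ?_⟩
  · rintro ⟨z₁, hz₁, h₁⟩
    obtain ⟨d, hd⟩ := exists_defect W W₀ hz₁ h₁
    omega
  · rintro rfl
    exact ⟨z, hz, hzW W hc⟩

end Pool.Agent.W538.Sign
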