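import Pool.Agent.H447R3.KuB
import Pool.Agent.H914R2.Cyc

/-!
# Linear algebra: an endomorphism with the supertraces of an idempotent
-/

open Polynomial LinearMap

universe u v

namespace Pool.Agent.W538.Sign

open Pool.Agent.H914

section Field

variable {K : Type*} [Field K] {V : Type*} [AddCommGroup V] [Module K V] [Module.Finite K V]

/-- a nilpotent endomorphism is killed by its power of exponent the dimension -/
lemma pow_finrank_eq_zero {y : Module.End K V} (h : IsNilpotent y) :
    y ^ Module.finrank K V = 0 := by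
  have h1 := LinearMap.aeval_self_charpoly y
  rw [h.charpoly_eq_X_pow_finrank] at h1
  simpa using h1

lemma pow_eq_zero_of_le {y : Module.End K V} (h : IsNilpotent y) {M : ℕ}
    (hM : Module.finrank K V ≤ M) : y ^ M = 0 := by
  obtain ⟨m, rfl⟩ := Nat.exists_eq_add_of_le hM
  rw [pow_add, pow_finrank_eq_zero h, zero_mul]

lemma trace_nilp {y : Module.End K V} (h : IsNilpotent y) : LinearMap.trace K V y = 0 :=
  (LinearMap.isNilpotent_trace_of_isNilpotent h).eq_zero

/-- the trace of an idempotent is a natural number, which is zero only for `0` -/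
lemma trace_nat [CharZero K] {e : Module.End K V} (he : e * e = e) :
    ∃ a : ℕ, LinearMap.trace K V e = a ∧ (a = 0 → e = 0) := by
  refine ⟨Module.finrank K (LinearMap.range e), trace_idem he, fun h => ?_⟩
  apply eq_zero_of_idem_of_trace_eq_zero he
  rw [trace_idem he, h, Nat.cast_zero]

variable {E y : Module.End K V} {b : ℕ}

lemma commute_aeval (hc : Commute E y) (f : K[X]) : Commute E (aeval y f) := by
  induction f using Polynomial.induction_on' with
  | add p q hp hq => rw [map_add]; exact hp.add_right hq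
  | monomial r c =>
    rw [aeval_monomial, Algebra.algebraMap_eq_smul_one, smul_mul_assoc, one_mul]
    exact (hc.pow_right r).smul_right c

/-- the hypothesis for all polynomials without constant term -/
lemma poly_trace (htr : ∀ r : ℕ, LinearMap.trace K V (E * y ^ (r + 1)) -
      LinearMap.trace K V ((1 - E) * y ^ (r + 1)) = b) (f : K[X]) :
    LinearMap.trace K V (E * aeval y (X * f)) - LinearMap.trace K V ((1 - E) * aeval y (X * f)) =
      f.eval 1 * b := by
  induction f using Polynomial.induction_on' with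
  | add p q hp hq =>
    rw [mul_add, map_add, mul_add, mul_add, map_add, map_add, eval_add, add_mul, ← hp, ← hq]
    ring
  | monomial r c =>
    have h1 : aeval y (X * monomial r c) = c • y ^ (r + 1) := by
      rw [← C_mul_X_pow_eq_monomial, map_mul, map_mul, aeval_X, aeval_C, map_pow, aeval_X,
        Algebra.algebraMap_eq_smul_one, smul_mul_assoc, one_mul, mul_smul_comm, ← pow_succ']
    rw [h1, mul_smul_comm, mul_smul_comm, map_smul, map_smul, smul_eq_mul, smul_eq_mul,
      ← mul_sub, htr, eval_monomial, one_pow, mul_one]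

variable [CharZero K]

/-- the fitting idempotent compared with `E` -/
lemma core (hE : E * E = E) (hc : Commute E y)
    (htr : ∀ r : ℕ, LinearMap.trace K V (E * y ^ (r + 1)) -
      LinearMap.trace K V ((1 - E) * y ^ (r + 1)) = b) :
    ∃ (c : ℕ), LinearMap.trace K V E = (b : K) + c ∧
      (c = 0 → ∃ (g : K[X]) (k : ℕ), E = y * aeval y g ∧ (1 - E) * y ^ k = 0) := by
  obtain ⟨w, k, hw0, hww, hkw, g, hg⟩ := exists_fitting y
  have hcp : ∀ f : K[X], Commute E (aeval y f) := commute_aeval hc
  have hE' : (1 - E) * (1 - E) = 1 - E := by rw [mul_sub, sub_mul, sub_mul, hE]; simp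
  have hcp' : ∀ f : K[X], Commute (1 - E) (aeval y f) := fun f =>
    (Commute.one_left _).sub_left (hcp f)
  -- the idempotent
  set π : Module.End K V := aeval y (1 - w) with hπ
  have hππ : π * π = π := by
    rw [hπ, map_sub, map_one, mul_sub, sub_mul, sub_mul, hww]; simp
  have hwπ : aeval y w = 1 - π := by rw [hπ, map_sub, map_one]; abel
  have hcπ : Commute E π := hcp _
  have hcπ' : Commute (1 - E) π := hcp' _
  -- `w(1) b = 0`
  have hw1 : w.eval 1 * (b : K) = 0 := by
    rw [← poly_trace htr w]
    have hn : ∀ F : Module.End K V, F * F = F → (∀ f : K[X], Commute F (aeval y f)) →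
        LinearMap.trace K V (F * aeval y (X * w)) = 0 := by
      intro F hF hFc
      apply trace_nilp
      apply (hFc (X * w)).isNilpotent_mul_left
      refine ⟨k + 1, ?_⟩
      rw [map_mul, aeval_X]
      have hyw : Commute y (aeval y w) := commute_aeval (Commute.refl y) w
      rw [hyw.mul_pow, pow_succ (aeval y w), ← mul_assoc, pow_succ, mul_assoc (y ^ k),
        mul_assoc (y ^ k)]
      have h3 : y * (aeval y w) ^ k * aeval y w = (aeval y w) ^ k * y * aeval y w := by
        rw [(hyw.pow_right k).eq]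
      have h4 : y ^ k * (y * (aeval y w) ^ k * aeval y w) =
          (y * (aeval y w) ^ k) * (y ^ k * aeval y w) := by
        have h5 : Commute (y ^ k) (y * (aeval y w) ^ k) :=
          (((Commute.refl y).pow_left k).mul_right ((hyw.pow_pow k k)))
        rw [← mul_assoc, h5.eq, mul_assoc]
      rw [h4, hkw, mul_zero]
    rw [hn E hE hcp, hn (1 - E) hE' hcp', sub_zero]
  have hpi : π = aeval y (X * g) := by rw [hπ, hg]
  have hb : LinearMap.trace K V (E * π) - LinearMap.trace K V ((1 - E) * π) = b := by
    rw [hpi, poly_trace htr g]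
    have h1 : g.eval 1 = 1 - w.eval 1 := by
      have := congrArg (fun f : K[X] => f.eval 1) hg
      simpa using this.symm
    rw [h1, sub_mul, one_mul, hw1, sub_zero]
  obtain ⟨c, hc1, hc2⟩ := trace_nat (e := (1 - E) * π) (by
    rw [mul_assoc, ← mul_assoc π, ← hcπ'.eq, mul_assoc, hππ, ← mul_assoc, hE'])
  obtain ⟨d, hd1, hd2⟩ := trace_nat (e := E * (1 - π)) (by
    have h1 : Commute E (1 - π) := (Commute.one_right _).sub_right hcπ
    have h2 : (1 - π) * (1 - π) = 1 - π := by rw [mul_sub, sub_mul, sub_mul, hππ]; simp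
    rw [mul_assoc, ← mul_assoc (1 - π), ← h1.eq, mul_assoc, h2, ← mul_assoc, hE])
  refine ⟨c + d, ?_, ?_⟩
  · have h1 : LinearMap.trace K V E = LinearMap.trace K V (E * π) +
        LinearMap.trace K V (E * (1 - π)) := by
      rw [← map_add, ← mul_add]; simp
    rw [h1, hd1]
    rw [sub_eq_iff_eq_add] at hb
    rw [hb, hc1]
    push_cast; ring
  · intro hcd
    have h1 := hc2 (by omega)
    have h2 := hd2 (by omega)
    have h3 : E = π := by
      rw [sub_mul, one_mul, sub_eq_zero] at h1
      rw [mul_sub, mul_one, sub_eq_zero] at h2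
      rw [h2, ← h1]
    refine ⟨g, k, ?_, ?_⟩
    · rw [h3, hpi, map_mul, aeval_X]
    · rw [h3, ← hwπ]
      have hyw : Commute (y ^ k) (aeval y w) := commute_aeval ((Commute.refl y).pow_left k) w
      rw [← hyw.eq, hkw]

/-- the polynomial -/
noncomputable def qM (M : ℕ) : ℚ[X] := 1 - (1 - X ^ M) ^ M

/-- the conclusion -/
lemma eq_poly (hE : E * E = E) (hc : Commute E y)
    (htr : ∀ r : ℕ, LinearMap.trace K V (E * y ^ (r + 1)) -
      LinearMap.trace K V ((1 - E) * y ^ (r + 1)) = b) (hb : LinearMap.trace K V E = b)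
    {M : ℕ} (hM : Module.finrank K V ≤ M) (hM0 : M ≠ 0) :
    ev y (qM M) = E := by
  obtain ⟨c, hc1, hc2⟩ := core hE hc htr
  have hc0 : c = 0 := by
    rw [hb] at hc1
    have : (c : K) = 0 := by linear_combination -hc1
    exact_mod_cast this
  obtain ⟨g, k, hEg, hEk⟩ := hc2 hc0
  have hE' : (1 - E) * (1 - E) = 1 - E := by rw [mul_sub, sub_mul, sub_mul, hE]; simp
  have hcy' : Commute (1 - E) y := (Commute.one_left _).sub_left hc
  -- `(1 - E) y` is nilpotent
  have hpowE' : ∀ m : ℕ, m ≠ 0 → (1 - E) ^ m = 1 - E := by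
    intro m hm
    obtain ⟨m, rfl⟩ := Nat.exists_eq_succ_of_ne_zero hm
    induction m with
    | zero => rw [Nat.succ_eq_add_one, zero_add, pow_one]
    | succ m ih => rw [Nat.succ_eq_add_one, pow_succ, ih (by omega), hE']
  have hpowE : ∀ m : ℕ, m ≠ 0 → E ^ m = E := by
    intro m hm
    obtain ⟨m, rfl⟩ := Nat.exists_eq_succ_of_ne_zero hm
    induction m with
    | zero => rw [Nat.succ_eq_add_one, zero_add, pow_one]
    | succ m ih => rw [Nat.succ_eq_add_one, pow_succ, ih (by omega), hE]
  have hn1 : IsNilpotent ((1 - E) * y) := by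
    refine ⟨k + 1, ?_⟩
    rw [hcy'.mul_pow, hpowE' _ (by omega), pow_succ, ← mul_assoc, hEk, zero_mul]
  have h1 : (1 - E) * y ^ M = 0 := by
    have := pow_eq_zero_of_le hn1 hM
    rwa [hcy'.mul_pow, hpowE' _ hM0] at this
  -- `E (y² - y)` is nilpotent
  set N : Module.End K V := y * y - y with hN
  have hNa : ∀ r : ℕ, N ^ (r + 1) = aeval y (X * ((X * X - X) ^ r * (X - 1) : K[X])) := by
    intro r
    rw [hN, map_mul, aeval_X, map_mul, map_pow, map_sub, map_mul, aeval_X, map_sub, aeval_X,
      map_one]
    have h5 : Commute y ((y * y - y) ^ r) :=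
      (((Commute.refl y).mul_right (Commute.refl y)).sub_right (Commute.refl y)).pow_right r
    rw [← mul_assoc, h5.eq, mul_assoc, mul_sub, mul_one, ← pow_succ]
  have hcN : Commute E N := (hc.mul_right hc).sub_right hc
  have hcN' : Commute (1 - E) N := (Commute.one_left _).sub_left hcN
  have hn2 : IsNilpotent (E * N) := by
    apply isNilpotent_of_trace_pow
    intro r
    rw [hcN.mul_pow, hpowE _ (by omega), hNa]
    have h2 := poly_trace htr ((X * X - X) ^ r * (X - 1) : K[X])
    have h3 : (((X * X - X) ^ r * (X - 1) : K[X])).eval 1 = 0 := by simp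
    rw [h3, zero_mul, sub_eq_zero] at h2
    rw [h2, ← hNa]
    apply trace_nilp
    have h4 : (1 - E) * N ^ (r + 1) = ((1 - E) * y) * ((y - 1) * N ^ r) := by
      rw [pow_succ', hN]
      have : y * y - y = y * (y - 1) := by rw [mul_sub, mul_one]
      rw [this]; simp only [mul_assoc]
    rw [h4]
    have h6 : Commute ((1 - E) * y) ((y - 1) * N ^ r) := by
      have a1 : Commute y (y - 1) := (Commute.refl y).sub_right (Commute.one_right y)
      have a2 : Commute y (N ^ r) :=
        (((Commute.refl y).mul_right (Commute.refl y)).sub_right (Commute.refl y)).pow_right r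
      have a3 : Commute (1 - E) (y - 1) := hcy'.sub_right (Commute.one_right _)
      have a4 : Commute (1 - E) (N ^ r) := hcN'.pow_right r
      exact ((a3.mul_right a4).mul_left (a1.mul_right a2))
    exact h6.isNilpotent_mul_right hn1
  have h2 : E * N ^ M = 0 := by
    have := pow_eq_zero_of_le hn2 hM
    rwa [hcN.mul_pow, hpowE _ hM0] at this
  -- `E (y - 1) ^ M = 0`
  have hyg : Commute y (aeval y g) := commute_aeval (Commute.refl y) g
  have h3 : E * (y - 1) ^ M = 0 := by
    have e1 : E = E * (y ^ M * (aeval y g) ^ M) := by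
      rw [← hyg.mul_pow, ← hEg, hpowE _ hM0, hE]
    have e2 : Commute ((aeval y g) ^ M) ((y - 1) ^ M) := by
      have a1 : Commute (aeval y g) (y - 1) := hyg.symm.sub_right (Commute.one_right _)
      exact a1.pow_pow M M
    have e3 : N ^ M = y ^ M * (y - 1) ^ M := by
      have a1 : Commute y (y - 1) := (Commute.refl y).sub_right (Commute.one_right y)
      rw [← a1.mul_pow, mul_sub, mul_one]
    rw [e1, mul_assoc, mul_assoc, e2.eq, ← mul_assoc (y ^ M), ← e3, ← mul_assoc, h2, zero_mul]
  -- the polynomial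
  have hev : ev y (qM M) = 1 - (1 - y ^ M) ^ M := by
    unfold qM
    rw [map_sub, map_pow, map_sub, map_pow, map_one, ev_X]
  have h4 : E * (1 - y ^ M) ^ M = 0 := by
    obtain ⟨q, hq⟩ : ∃ q : K[X], (1 - X ^ M : K[X]) = (X - 1) * q := by
      have := sub_dvd_pow_sub_pow (1 : K[X]) X M
      rw [one_pow] at this
      obtain ⟨q, hq⟩ := this
      exact ⟨-q, by rw [hq]; ring⟩
    have h5 : (1 - y ^ M) ^ M = (y - 1) ^ M * (aeval y q) ^ M := by
      have h6 : (1 - y ^ M) = (y - 1) * aeval y q := by
        have := congrArg (aeval y) hq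
        simpa using this
      have h7 : Commute (y - 1) (aeval y q) :=
        (commute_aeval (Commute.refl y) q).sub_left (Commute.one_left _)
      rw [h6, h7.mul_pow]
    rw [h5, ← mul_assoc, h3, zero_mul]
  have h5 : (1 - E) * (1 - (1 - y ^ M) ^ M) = 0 := by
    obtain ⟨q, hq⟩ : ∃ q : K[X], (1 - (1 - X ^ M) ^ M : K[X]) = X ^ M * q := by
      have := sub_dvd_pow_sub_pow (1 : K[X]) (1 - X ^ M) M
      rw [one_pow, sub_sub_cancel] at this
      exact this
    have h6 : (1 - (1 - y ^ M) ^ M) = y ^ M * aeval y q := by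
      have := congrArg (aeval y) hq
      simpa using this
    rw [h6, ← mul_assoc, h1, zero_mul]
  rw [hev]
  have h6 : (1 - (1 - y ^ M) ^ M) = E * (1 - (1 - y ^ M) ^ M) := by
    rw [sub_mul, one_mul, sub_eq_zero] at h5
    exact h5
  rw [h6, mul_sub, mul_one, h4, sub_zero]

/-- the polynomial at an idempotent -/
lemma ev_idem {e : Module.End K V} (he : e * e = e) {M : ℕ} (hM : M ≠ 0) :
    ev e (qM M) = e := by
  have hpow : ∀ m : ℕ, m ≠ 0 → e ^ m = e := by
    intro m hm
    obtain ⟨m, rfl⟩ := Nat.exists_eq_succ_of_ne_zero hm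
    induction m with
    | zero => rw [Nat.succ_eq_add_one, zero_add, pow_one]
    | succ m ih => rw [Nat.succ_eq_add_one, pow_succ, ih (by omega), he]
  have he' : (1 - e) * (1 - e) = 1 - e := by rw [mul_sub, sub_mul, sub_mul, he]; simp
  have hpow' : ∀ m : ℕ, m ≠ 0 → (1 - e) ^ m = 1 - e := by
    intro m hm
    obtain ⟨m, rfl⟩ := Nat.exists_eq_succ_of_ne_zero hm
    induction m with
    | zero => rw [Nat.succ_eq_add_one, zero_add, pow_one]
    | succ m ih => rw [Nat.succ_eq_add_one, pow_succ, ih (by omega), he']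
  unfold qM
  rw [map_sub, map_pow, map_sub, map_pow, map_one, ev_X, hpow M hM, hpow' M hM, sub_sub_cancel]

end Field

end Pool.Agent.W538.Sign
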